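import Pool.Agent.W743.HP.Stm

/-!
Project HP (helper743), part EX: existence of a nonradial solution.
-/

set_option autoImplicit false

open Set Filter Topology MeasureTheory

namespace Pool.Agent.W743.HP

/-- The coordinate `x ↦ x.1 k`. -/
noncomputable def co1 (k : ℕ) : Q × E →L[ℝ] ℝ :=
  (lp.evalCLM ℝ (fun _ : ℕ => ℝ) 1 k).comp (ContinuousLinearMap.fst ℝ Q E)

theorem co1_apply (k : ℕ) (v : Q × E) : co1 k v = v.1 k := rfl

theorem ue_self {ι : Type} [DecidableEq ι] (i : ι) : (ue i : L1 ι) i = 1 := by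
  simp [ue]

theorem ue_ne {ι : Type} [DecidableEq ι] {i j : ι} (h : j ≠ i) : (ue i : L1 ι) j = 0 := by
  unfold ue
  exact lp.single_apply_ne 1 i 1 h

theorem PP_ue0 : PP (ue 0) = 0 := by
  unfold PP
  rw [lift_ue]
  simp

theorem norm_PP_le (q : Q) : ‖PP q‖ ≤ ‖q‖ := by
  have h1 : ‖PP‖ ≤ 1 := norm_lift_le _ _ zero_le_one _
  calc ‖PP q‖ ≤ ‖PP‖ * ‖q‖ := PP.le_opNorm q
    _ ≤ 1 * ‖q‖ := mul_le_mul_of_nonneg_right h1 (norm_nonneg _)
    _ = ‖q‖ := one_mul _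

theorem ex (hLC : S_LC) (hD : S_DIFF) (hBR : S_BR) (hC : S_CONT) (hB : S_BASE) (hS : S_SOLV)
    (hF : S_FRED) : S_EX := by
  obtain ⟨x, hx, hxp, hxa, hxb⟩ := hBR
  obtain ⟨m, hm, hm0⟩ := hC x hx (fun α hα => ⟨(hxp α hα).1, (hxp α hα).2.2.1⟩)
  have haL : (24 : ℝ) < aL := by unfold aL; norm_num
  have hab : aL < bL := by unfold aL bL; norm_num
  have hpos : ∀ α ∈ Icc aL bL, 0 < α := fun α hα => by linarith [hα.1]
  have hxr : ∀ α ∈ Icc aL bL, 748 / 1000 ≤ 2 * x α ∧ 2 * x α ≤ 752 / 1000 := fun α hα => by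
    have h1 := (hxp α hα).1
    unfold xl xh at h1
    constructor <;> linarith [h1.1, h1.2]
  have hhalf : ∀ α, 2 * x α / 2 = x α := fun α => by ring
  have hgood : ∀ α ∈ Icc aL bL, Good α (2 * x α) (m α) := fun α hα => by
    obtain ⟨h1, h2, h3, h4, h5, h6⟩ := hxp α hα
    have h7 := hxr α hα
    exact ⟨hpos α hα, by linarith, by linarith, hm0 α hα, by rwa [hhalf], by rwa [hhalf],
      by rwa [hhalf], by rwa [hhalf], fun n hn => by rw [hhalf]; exact h6 n hn⟩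
  set e : ℝ → Q × E := fun α => ((2 * x α) • ue 0, m α) with he
  have hec : ContinuousOn e (Icc aL bL) := by
    refine ContinuousOn.prodMk ?_ hm
    exact (continuousOn_const.mul hx).smul continuousOn_const
  have hinj : ∀ α ∈ Icc aL bL, ∀ v : Q × E, DF α 0 (e α) 0 v = 0 → v = 0 := fun α hα v hv => by
    obtain ⟨h1, h2, h3, h4, h5⟩ := hS α (2 * x α) (m α) (hgood α hα) 0 v hv
    have h6 : v.1 1 = 0 := by rw [h4]; simp
    refine Prod.ext (lp.ext (funext fun n => ?_)) (lp.ext (funext fun i => ?_))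
    · match n with
      | 0 => exact h1
      | 1 => exact h6
      | n + 2 => exact (h2 (n + 2) (by omega)).1
    · obtain ⟨n, j⟩ := i
      match n with
      | 0 => exact h3 j
      | 1 => exact h5 rfl j
      | n + 2 => exact (h2 (n + 2) (by omega)).2 j
  set F : ℝ × ℝ × (Q × E) → Q × E := fun z => FF z.1 z.2.1 z.2.2 with hFdef
  have hFz : ∀ α ∈ Icc aL bL, F (α, 0, e α) = 0 := fun α hα => by
    have h1 := hgood α hα
    exact hB α (2 * x α) (m α) h1.α_pos.le h1.y_pos h1.y_lt h1.g0.ne' h1.g1 h1.isM0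
  have hbij : ∀ α ∈ Icc aL bL,
      Function.Bijective fun v : Q × E => fderiv ℝ F (α, 0, e α) (0, 0, v) := fun α hα => by
    have h1 := hF α (2 * x α) (m α) (hgood α hα) (hinj α hα)
    have h2 : (fun v : Q × E => fderiv ℝ F (α, 0, e α) (0, 0, v)) =
        fun v : Q × E => DF α 0 ((2 * x α) • ue 0, m α) 0 v := by
      funext v
      exact hD.2 α 0 (e α) 0 v
    rw [h2]
    exact h1
  have hder : ∀ α ∈ Icc aL bL, ∃ v : Q × E, fderiv ℝ F (α, 0, e α) (0, 1, v) = 0 ∧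
      v.1 1 = -((2 * x α) * G2 0 α (x α) * G 4 α (x α) / (5 * G 0 α (x α) * G1 4 α (x α))) := by
    intro α hα
    obtain ⟨v, hv⟩ := (hbij α hα).2 (-fderiv ℝ F (α, 0, e α) (0, 1, 0))
    have h1 : fderiv ℝ F (α, 0, e α) (0, 1, v) = 0 := by
      have h2 : ((0, 1, v) : ℝ × ℝ × (Q × E)) = (0, 0, v) + (0, 1, 0) := by simp
      rw [h2, map_add]
      simp only at hv
      rw [hv]
      simp
    refine ⟨v, h1, ?_⟩
    have h3 : DF α 0 ((2 * x α) • ue 0, m α) 1 v = 0 := by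
      have h4 := hD.2 α 0 (e α) 1 v
      rw [← h4]
      exact h1
    have h5 := (hS α (2 * x α) (m α) (hgood α hα) 1 v h3).2.2.2.1
    rw [hhalf, one_mul] at h5
    exact h5
  have ha : aL ∈ Icc aL bL := left_mem_Icc.2 hab.le
  have hb : bL ∈ Icc aL bL := right_mem_Icc.2 hab.le
  obtain ⟨va, hva, hva1⟩ := hder aL ha
  obtain ⟨vb, hvb, hvb1⟩ := hder bL hb
  have hla : 0 < co1 1 va := by
    rw [co1_apply, hva1]
    obtain ⟨-, -, g3, g4, g5, -⟩ := hxp aL ha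
    have h7 := (hxr aL ha).1
    have n1 : 0 < (2 * x aL) * G2 0 aL (x aL) * G 4 aL (x aL) :=
      mul_pos_of_neg_of_neg (mul_neg_of_pos_of_neg (by linarith) g4) hxa
    have n2 : 5 * G 0 aL (x aL) * G1 4 aL (x aL) < 0 :=
      mul_neg_of_pos_of_neg (by positivity) g5
    have n3 := div_neg_of_pos_of_neg n1 n2
    linarith
  have hlb : co1 1 vb < 0 := by
    rw [co1_apply, hvb1]
    obtain ⟨-, -, g3, g4, g5, -⟩ := hxp bL hb
    have h7 := (hxr bL hb).1
    have n1 : (2 * x bL) * G2 0 bL (x bL) * G 4 bL (x bL) < 0 :=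
      mul_neg_of_neg_of_pos (mul_neg_of_pos_of_neg (by linarith) g4) hxb
    have n2 : 5 * G 0 bL (x bL) * G1 4 bL (x bL) < 0 :=
      mul_neg_of_pos_of_neg (by positivity) g5
    have n3 := div_pos_of_neg_of_neg n1 n2
    linarith
  have hle : ∀ α ∈ Icc aL bL, co1 1 (e α) = 0 := fun α _ => by
    rw [co1_apply]
    simp only [he]
    rw [lp.coeFn_smul, Pi.smul_apply, ue_ne (by norm_num), smul_zero]
  obtain ⟨α, hα, ε, hε0, hε1, z, hz, hFzz, hlz⟩ := hLC (Q × E) F hD.1 aL bL hab e hec hFz hbij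
    (co1 1) hle va vb hva hvb hla hlb (1 / 100) (by norm_num)
  have hq : ‖z.1 - (2 * x α) • ue 0‖ < 1 / 100 := by
    have h1 : ‖(z - e α).1‖ ≤ ‖z - e α‖ := norm_fst_le _
    exact lt_of_le_of_lt h1 hz
  have hr := hxr α hα
  have hz0 : |z.1 0 - 2 * x α| < 1 / 100 := by
    have h1 := lp.norm_apply_le_norm (p := 1) (by norm_num) (z.1 - (2 * x α) • ue 0) 0
    have h2 : (z.1 - (2 * x α) • ue 0 : Q) 0 = z.1 0 - 2 * x α := by
      rw [lp.coeFn_sub, Pi.sub_apply, lp.coeFn_smul, Pi.smul_apply, ue_self, smul_eq_mul, mul_one]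
    rw [h2, Real.norm_eq_abs] at h1
    exact lt_of_le_of_lt h1 hq
  have hz0' := abs_lt.1 hz0
  refine ⟨α, ε, z, by linarith [hα.1], hε0.ne', ?_, by linarith [hz0'.1, hr.1],
    by linarith [hz0'.2, hr.2], hlz, hFzz⟩
  have h3 : ph ε z.1 - ue 0 = ε • ue 1 + PP (z.1 - (2 * x α) • ue 0) := by
    unfold ph
    rw [map_sub, map_smul, PP_ue0, smul_zero, sub_zero]
    abel
  rw [h3]
  calc ‖ε • (ue 1 : Q) + PP (z.1 - (2 * x α) • ue 0)‖
      ≤ ‖ε • (ue 1 : Q)‖ + ‖PP (z.1 - (2 * x α) • ue 0)‖ := norm_add_le _ _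
    _ ≤ ε + 1 / 100 := by
        refine add_le_add ?_ ((norm_PP_le _).trans hq.le)
        rw [norm_smul, norm_ue, mul_one, Real.norm_eq_abs, abs_of_pos hε0]
    _ ≤ 1 / 20 := by linarith

end Pool.Agent.W743.HP
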