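import Mathlib

/-!
Project HP (helper743): open subsets of the hyperbolic plane have positive volume.
-/

set_option autoImplicit false

open Set Filter Topology MeasureTheory

namespace Pool.Agent.W743.HP

theorem vol_ne_zero (U : Set UpperHalfPlane) (hU : IsOpen U) (hne : U.Nonempty) :
    volume U ≠ 0 := by
  rw [UpperHalfPlane.volume_eq_lintegral]
  have ho : IsOpen (UpperHalfPlane.coe '' U) :=
    UpperHalfPlane.isOpenEmbedding_coe.isOpenMap _ hU
  have hm : Measurable fun z : ℂ => (((1 / ‖z.im‖₊) ^ 2 : NNReal) : ENNReal) := by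
    fun_prop
  have h1 : 0 < ∫⁻ z in UpperHalfPlane.coe '' U, (((1 / ‖z.im‖₊) ^ 2 : NNReal) : ENNReal) := by
    rw [setLIntegral_pos_iff hm]
    have h2 : UpperHalfPlane.coe '' U ⊆
        Function.support fun z : ℂ => (((1 / ‖z.im‖₊) ^ 2 : NNReal) : ENNReal) := by
      rintro _ ⟨τ, _, rfl⟩
      simpa using τ.im_ne_zero
    rw [inter_eq_self_of_subset_right h2]
    exact ho.measure_pos _ (hne.image _)
  exact h1.ne'

theorem not_ae_zero (ψ : UpperHalfPlane → ℝ) (hψ : Continuous ψ) (h : ∃ z, ψ z ≠ 0) :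
    ¬ ψ =ᵐ[volume] 0 := by
  obtain ⟨z, hz⟩ := h
  intro h1
  have h2 : volume {w | ψ w ≠ 0} = 0 := h1
  exact vol_ne_zero _ (hψ.isOpen_preimage _ isOpen_ne) ⟨z, hz⟩ h2

end Pool.Agent.W743.HP
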