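import Mathlib

/-!
Project HP (helper743), problem MP_8f331d_an: a bounded domain of the hyperbolic plane with connected
complement which fails the Pompeiu property and is not a disc. Definitions.
-/

set_option autoImplicit false

open Set Filter Topology MeasureTheory

namespace Pool.Agent.W743.HP

/-- The space `ℓ¹(ι)`. -/
abbrev L1 (ι : Type) := lp (fun _ : ι => ℝ) 1

/-- The unit vector with index `i`. -/
noncomputable def ue {ι : Type} [DecidableEq ι] (i : ι) : L1 ι := lp.single 1 i (1 : ℝ)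

section lift

variable {ι κ Y : Type} [NormedAddCommGroup Y] [NormedSpace ℝ Y] [CompleteSpace Y]

theorem L1.hasSum_norm (a : L1 ι) : HasSum (fun i => |a i|) ‖a‖ := by
  have h := lp.hasSum_norm (p := 1) (by norm_num) a
  simpa using h

theorem L1.summable (a : L1 ι) : Summable (fun i => |a i|) := (L1.hasSum_norm a).summable

theorem L1.lift_summable (φ : ι → Y) (C : ℝ) (h : ∀ i, ‖φ i‖ ≤ C) (a : L1 ι) :
    Summable (fun i => a i • φ i) := by
  refine Summable.of_norm_bounded (g := fun i => |a i| * C) ((L1.summable a).mul_right C) fun i => ?_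
  rw [norm_smul, Real.norm_eq_abs]
  exact mul_le_mul_of_nonneg_left (h i) (abs_nonneg _)

/-- The continuous linear map `a ↦ ∑ i, a i • φ i` given by a bounded family `φ`. -/
noncomputable def lift (φ : ι → Y) (C : ℝ) (h : ∀ i, ‖φ i‖ ≤ C) : L1 ι →L[ℝ] Y :=
  LinearMap.mkContinuous
    { toFun := fun a => ∑' i, a i • φ i
      map_add' := fun a b => by
        simp only [lp.coeFn_add, Pi.add_apply, add_smul]
        exact (L1.lift_summable φ C h a).tsum_add (L1.lift_summable φ C h b)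
      map_smul' := fun c a => by
        simp only [lp.coeFn_smul, Pi.smul_apply, smul_eq_mul, RingHom.id_apply, mul_smul]
        exact (L1.lift_summable φ C h a).tsum_const_smul c } C fun a => by
      have h1 : HasSum (fun i => |a i| * C) (‖a‖ * C) := (L1.hasSum_norm a).mul_right C
      have h2 := tsum_of_norm_bounded h1 (f := fun i => a i • φ i) fun i => by
        rw [norm_smul, Real.norm_eq_abs]
        exact mul_le_mul_of_nonneg_left (h i) (abs_nonneg _)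
      calc ‖∑' i, a i • φ i‖ ≤ ‖a‖ * C := h2
        _ = C * ‖a‖ := mul_comm _ _

theorem lift_apply (φ : ι → Y) (C : ℝ) (h : ∀ i, ‖φ i‖ ≤ C) (a : L1 ι) :
    lift φ C h a = ∑' i, a i • φ i := rfl

theorem lift_hasSum (φ : ι → Y) (C : ℝ) (h : ∀ i, ‖φ i‖ ≤ C) (a : L1 ι) :
    HasSum (fun i => a i • φ i) (lift φ C h a) := (L1.lift_summable φ C h a).hasSum

theorem norm_lift_le (φ : ι → Y) (C : ℝ) (hC : 0 ≤ C) (h : ∀ i, ‖φ i‖ ≤ C) :
    ‖lift φ C h‖ ≤ C := LinearMap.mkContinuous_norm_le _ hC _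

theorem lift_ue [DecidableEq ι] (φ : ι → Y) (C : ℝ) (h : ∀ i, ‖φ i‖ ≤ C) (i : ι) :
    lift φ C h (ue i) = φ i := by
  rw [lift_apply, tsum_eq_single i]
  · simp [ue]
  · intro j hj
    have : (ue i : L1 ι) j = 0 := by
      unfold ue
      exact lp.single_apply_ne 1 i 1 hj
    rw [this, zero_smul]

theorem norm_ue [DecidableEq ι] (i : ι) : ‖(ue i : L1 ι)‖ = 1 := by
  unfold ue
  rw [lp.norm_single (by norm_num)]
  simp

/-- The bilinear version of `lift`. -/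
noncomputable def lift₂ (φ : ι → κ → Y) (C : ℝ) (hC : 0 ≤ C) (h : ∀ i j, ‖φ i j‖ ≤ C) :
    L1 ι →L[ℝ] L1 κ →L[ℝ] Y :=
  lift (fun i => lift (φ i) C (h i)) C fun i => norm_lift_le (φ i) C hC (h i)

theorem lift₂_ue [DecidableEq ι] [DecidableEq κ] (φ : ι → κ → Y) (C : ℝ) (hC : 0 ≤ C)
    (h : ∀ i j, ‖φ i j‖ ≤ C) (i : ι) (j : κ) : lift₂ φ C hC h (ue i) (ue j) = φ i j := by
  rw [lift₂, lift_ue, lift_ue]

omit [CompleteSpace Y] in
/-- Two continuous linear maps on `ℓ¹` which agree on the unit vectors are equal. -/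
theorem L1.ext_ue [DecidableEq ι] {A B : L1 ι →L[ℝ] Y} (h : ∀ i, A (ue i) = B (ue i)) : A = B := by
  ext a
  have h1 : HasSum (fun i => a i • (ue i : L1 ι)) a := by
    have h2 := lp.hasSum_single (p := 1) (by norm_num) a
    refine h2.congr_fun fun i => ?_
    unfold ue
    rw [← lp.single_smul]
    simp
  have h3 := h1.mapL A
  have h4 := h1.mapL B
  refine h3.unique ?_
  refine h4.congr_fun fun i => ?_
  rw [map_smul, map_smul, h i]

end lift

/-! ### The spaces and the operators of the bifurcation problem -/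

/-- `a : E` represents the function `∑ a (n, j) |z| ^ (2 j) Re (z ^ (4 n))` on the unit disc. -/
abbrev E := L1 (ℕ × ℕ)

/-- `p : Q` represents the function `∑ p n z ^ (4 n)` on the unit disc. -/
abbrev Q := L1 ℕ

theorem norm_half_add (i j : ℕ × ℕ) :
    ‖(1 / 2 : ℝ) • (ue i : E) + (1 / 2 : ℝ) • ue j‖ ≤ 1 := by
  refine (norm_add_le _ _).trans ?_
  rw [norm_smul, norm_smul, norm_ue, norm_ue]
  norm_num

/-- The product of two functions in `E`. -/
noncomputable def mulE : E →L[ℝ] E →L[ℝ] E :=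
  lift₂ (fun i k => (1 / 2 : ℝ) • ue (i.1 + k.1, i.2 + k.2) +
    (1 / 2 : ℝ) • ue ((i.1 - k.1) + (k.1 - i.1), i.2 + k.2 + 4 * min i.1 k.1)) 1 zero_le_one
    fun _ _ => norm_half_add _ _

/-- Multiplication by `|z| ^ 2`. -/
noncomputable def RR : E →L[ℝ] E :=
  lift (fun i => ue (i.1, i.2 + 1)) 1 fun _ => (norm_ue _).le

theorem norm_TT_aux (i : ℕ × ℕ) :
    ‖(1 / ((4 * i.1 + i.2 + 1) * (i.2 + 1)) : ℝ) •
      ((1 / 2 : ℝ) ^ (i.2 + 1) • (ue (i.1, 0) : E) - ue (i.1, i.2 + 1))‖ ≤ 2 := by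
  have h1 : ‖(1 / 2 : ℝ) ^ (i.2 + 1) • (ue (i.1, 0) : E) - ue (i.1, i.2 + 1)‖ ≤ 2 := by
    refine (norm_sub_le _ _).trans ?_
    rw [norm_smul, norm_ue, norm_ue, Real.norm_eq_abs, abs_of_nonneg (by positivity)]
    have : ((1 : ℝ) / 2) ^ (i.2 + 1) ≤ 1 := pow_le_one₀ (by norm_num) (by norm_num)
    linarith
  have h2 : ‖(1 / ((4 * i.1 + i.2 + 1) * (i.2 + 1)) : ℝ)‖ ≤ 1 := by
    rw [Real.norm_eq_abs, abs_of_nonneg (by positivity), div_le_one (by positivity)]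
    have h3 : (0 : ℝ) ≤ i.1 := Nat.cast_nonneg _
    have h4 : (0 : ℝ) ≤ i.2 := Nat.cast_nonneg _
    nlinarith [mul_nonneg h3 h4, mul_nonneg h4 h4]
  rw [norm_smul]
  calc _ ≤ 1 * (2 : ℝ) := mul_le_mul h2 h1 (norm_nonneg _) zero_le_one
    _ = 2 := one_mul _

/-- The solution operator of `∂ ∂bar u = - m` for `|z| ^ 2 < 1 / 2`, `u = 0` for `|z| ^ 2 = 1 / 2`. -/
noncomputable def TT : E →L[ℝ] E :=
  lift (fun i => (1 / ((4 * i.1 + i.2 + 1) * (i.2 + 1)) : ℝ) •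
    ((1 / 2 : ℝ) ^ (i.2 + 1) • ue (i.1, 0) - ue (i.1, i.2 + 1))) 2 norm_TT_aux

theorem norm_NN_aux (i : ℕ × ℕ) :
    ‖((4 * i.1 + 1) * (1 / 2) ^ i.2 / (4 * i.1 + i.2 + 1) : ℝ) • (ue i.1 : Q)‖ ≤ 1 := by
  rw [norm_smul, norm_ue, mul_one, Real.norm_eq_abs, abs_of_nonneg (by positivity),
    div_le_one (by positivity)]
  have h1 : ((1 : ℝ) / 2) ^ i.2 ≤ 1 := pow_le_one₀ (by norm_num) (by norm_num)
  have h3 : (0 : ℝ) ≤ i.1 := Nat.cast_nonneg _
  have h4 : (0 : ℝ) ≤ i.2 := Nat.cast_nonneg _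
  have h5 : (4 * (i.1 : ℝ) + 1) * (1 / 2) ^ i.2 ≤ (4 * (i.1 : ℝ) + 1) * 1 :=
    mul_le_mul_of_nonneg_left h1 (by positivity)
  linarith

/-- The (scaled) Neumann data of `TT m`. -/
noncomputable def NN : E →L[ℝ] Q :=
  lift (fun i => ((4 * i.1 + 1) * (1 / 2) ^ i.2 / (4 * i.1 + i.2 + 1) : ℝ) • ue i.1) 1 norm_NN_aux

/-- `BB p r` is the function `Re (p (z) * conj (r (z)))`. -/
noncomputable def BB : Q →L[ℝ] Q →L[ℝ] E :=
  lift₂ (fun i j => ue ((i - j) + (j - i), 4 * min i j)) 1 zero_le_one fun _ _ => (norm_ue _).le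

theorem norm_SS_aux (n : ℕ) : ‖(1 / (4 * n + 1) : ℝ) • (ue n : Q)‖ ≤ 1 := by
  rw [norm_smul, norm_ue, mul_one, Real.norm_eq_abs, abs_of_nonneg (by positivity),
    div_le_one (by positivity)]
  have h3 : (0 : ℝ) ≤ n := Nat.cast_nonneg _
  linarith

/-- `z * SS p (z)` is the primitive of `p (z)`. -/
noncomputable def SS : Q →L[ℝ] Q := lift (fun n => (1 / (4 * n + 1) : ℝ) • ue n) 1 norm_SS_aux

theorem norm_PP_aux (n : ℕ) : ‖(if n < 2 then 0 else ue n : Q)‖ ≤ 1 := by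
  split
  · simp
  · rw [norm_ue]

/-- Drops the coordinates `0` and `1`. -/
noncomputable def PP : Q →L[ℝ] Q := lift (fun n => if n < 2 then 0 else ue n) 1 norm_PP_aux

/-- `f' / t`. -/
noncomputable def ph (ε : ℝ) (q : Q) : Q := ue 0 + ε • ue 1 + PP q

/-- `|f / t| ^ 2`. -/
noncomputable def XX (p : Q) : E := RR (BB (SS p) (SS p))

/-- The function `u`. -/
noncomputable def UU (x : Q × E) : E := ue (0, 0) + TT x.2 + x.1 1 • ue (1, 0)

/-- The map whose zeros are the solutions. The unknown `x = (q, m)`; `q 0 = y = t ^ 2`, `q 1 = γ`,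
`q n` (`n ≥ 2`) are the coefficients of `f' / t`. -/
noncomputable def FF (α ε : ℝ) (x : Q × E) : Q × E :=
  (NN x.2,
    x.2 - (2 * x.1 0) • mulE (XX (ph ε x.1)) x.2 +
      (x.1 0 ^ 2) • mulE (XX (ph ε x.1)) (mulE (XX (ph ε x.1)) x.2) -
      (α * x.1 0) • mulE (BB (ph ε x.1) (ph ε x.1)) (UU x))

/-- The derivative of `ph`. -/
noncomputable def dph (η : ℝ) (q : Q) : Q := η • ue 1 + PP q

/-- The derivative of `XX`. -/
noncomputable def dXX (p p' : Q) : E := RR (BB (SS p) (SS p') + BB (SS p') (SS p))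

/-- The derivative of `FF α` at `(ε, x)` in the direction `(η, v)`. -/
noncomputable def DF (α ε : ℝ) (x : Q × E) (η : ℝ) (v : Q × E) : Q × E :=
  (NN v.2,
    v.2 - (2 * v.1 0) • mulE (XX (ph ε x.1)) x.2 -
      (2 * x.1 0) • (mulE (dXX (ph ε x.1) (dph η v.1)) x.2 + mulE (XX (ph ε x.1)) v.2) +
      (2 * x.1 0 * v.1 0) • mulE (XX (ph ε x.1)) (mulE (XX (ph ε x.1)) x.2) +
      (x.1 0 ^ 2) • (mulE (dXX (ph ε x.1) (dph η v.1)) (mulE (XX (ph ε x.1)) x.2) +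
        mulE (XX (ph ε x.1)) (mulE (dXX (ph ε x.1) (dph η v.1)) x.2) +
        mulE (XX (ph ε x.1)) (mulE (XX (ph ε x.1)) v.2)) -
      (α * v.1 0) • mulE (BB (ph ε x.1) (ph ε x.1)) (UU x) -
      (α * x.1 0) • (mulE (BB (ph ε x.1) (dph η v.1) + BB (dph η v.1) (ph ε x.1)) (UU x) +
        mulE (BB (ph ε x.1) (ph ε x.1)) (TT v.2 + v.1 1 • ue (1, 0))))

/-! ### The radial equations -/

/-- Recursion for the power series solution of
`(1 - s) ^ 2 (s g'' + (N + 1) g') + α g = 0`, `g 0 = 1`. -/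
noncomputable def cf (N : ℕ) (α : ℝ) : ℕ → ℝ × ℝ × ℝ
  | 0 => (1, 0, 0)
  | j + 1 =>
    (((cf N α j).2.1 + ((cf N α j).2.2 - α * (cf N α j).1)) / ((j + 1) * (j + 1 + N)),
      (cf N α j).2.1 + ((cf N α j).2.2 - α * (cf N α j).1),
      (cf N α j).2.2 - α * (cf N α j).1)

/-- The coefficients. -/
noncomputable def c (N : ℕ) (α : ℝ) (j : ℕ) : ℝ := (cf N α j).1

/-- The solution `g`. -/
noncomputable def G (N : ℕ) (α s : ℝ) : ℝ := ∑' j : ℕ, c N α j * s ^ j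

/-- Its derivative. -/
noncomputable def G1 (N : ℕ) (α s : ℝ) : ℝ := ∑' j : ℕ, (j + 1) * c N α (j + 1) * s ^ j

/-- Its second derivative. -/
noncomputable def G2 (N : ℕ) (α s : ℝ) : ℝ := ∑' j : ℕ, (j + 2) * (j + 1) * c N α (j + 2) * s ^ j

/-- Coefficients of the radial solution `u` (for `f = √y z`). -/
noncomputable def uh (α y : ℝ) (j : ℕ) : ℝ := c 0 α j * y ^ j / G 0 α (y / 2)

/-- Coefficients of `- ∂ ∂bar u`. -/
noncomputable def mh (α y : ℝ) (j : ℕ) : ℝ := -((j + 1) ^ 2 * uh α y (j + 1))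

/-- `m` is the radial solution. -/
def IsM0 (α y : ℝ) (m : E) : Prop := ∀ n j, m (n, j) = if n = 0 then mh α y j else 0

/-! ### Evaluation -/

theorem norm_evE_aux (z : ℂ) (i : ℕ × ℕ) :
    ‖(if ‖z‖ ≤ 1 then ‖z‖ ^ (2 * i.2) * (z ^ (4 * i.1)).re else 0 : ℝ)‖ ≤ 1 := by
  split
  · next h =>
    rw [norm_mul, Real.norm_eq_abs, Real.norm_eq_abs, abs_of_nonneg (by positivity)]
    have h1 : ‖z‖ ^ (2 * i.2) ≤ 1 := pow_le_one₀ (norm_nonneg _) h
    have h2 : |(z ^ (4 * i.1)).re| ≤ 1 := (Complex.abs_re_le_norm _).trans (by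
      rw [norm_pow]; exact pow_le_one₀ (norm_nonneg _) h)
    calc _ ≤ (1 : ℝ) * 1 := mul_le_mul h1 h2 (abs_nonneg _) zero_le_one
      _ = 1 := one_mul _
  · simp

/-- The value of `a : E` at `z` (for `|z| ≤ 1`). -/
noncomputable def evE (z : ℂ) : E →L[ℝ] ℝ :=
  lift (fun i => if ‖z‖ ≤ 1 then ‖z‖ ^ (2 * i.2) * (z ^ (4 * i.1)).re else 0) 1 (norm_evE_aux z)

theorem norm_evQ_aux (z : ℂ) (n : ℕ) : ‖(if ‖z‖ ≤ 1 then z ^ (4 * n) else 0 : ℂ)‖ ≤ 1 := by
  split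
  · next h =>
    rw [norm_pow]
    exact pow_le_one₀ (norm_nonneg _) h
  · simp

/-- The value of `p : Q` at `z` (for `|z| ≤ 1`). -/
noncomputable def evQ (z : ℂ) : Q →L[ℝ] ℂ :=
  lift (fun n => if ‖z‖ ≤ 1 then z ^ (4 * n) else 0) 1 (norm_evQ_aux z)

/-! ### Classical formulation -/

/-- The Laplacian. -/
noncomputable def lap {F : Type} [NormedAddCommGroup F] [NormedSpace ℝ F] (u : ℂ → F) (z : ℂ) : F :=
  fderiv ℝ (fun w => fderiv ℝ u w 1) z 1 + fderiv ℝ (fun w => fderiv ℝ u w Complex.I) z Complex.I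

/-- The closed disc `|z| ^ 2 ≤ 1 / 2`. -/
def cd : Set ℂ := {z | ‖z‖ ^ 2 ≤ 1 / 2}

/-- The open disc `|z| ^ 2 < 1 / 2`. -/
def od : Set ℂ := {z | ‖z‖ ^ 2 < 1 / 2}

/-- A solution of the overdetermined problem on the domain `f (od)` of the Poincaré disc, pulled back
by the conformal map `f`. -/
structure Sol (α : ℝ) (f : ℂ → ℂ) (u : ℂ → ℝ) : Prop where
  α_pos : 1 / 4 < α
  f_diff : DifferentiableOn ℂ f (Metric.ball 0 1)
  f_zero : f 0 = 0
  f_sym : ∀ z ∈ Metric.ball (0 : ℂ) 1, f (Complex.I * z) = Complex.I * f z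
  f_der : ∃ t : ℝ, 4 / 5 < t ∧ t < 9 / 10 ∧
    ∀ z ∈ Metric.ball (0 : ℂ) 1, ‖deriv f z - t‖ ≤ t / 10
  f_non : ¬ ∃ c : ℂ, ∀ z ∈ Metric.ball (0 : ℂ) 1, f z = c * z
  u_diff : ContDiffOn ℝ 2 u (Metric.ball 0 1)
  u_eq : ∀ z ∈ Metric.ball (0 : ℂ) 1,
    (1 - ‖f z‖ ^ 2) ^ 2 * lap u z = -(4 * α * ‖deriv f z‖ ^ 2 * u z)
  u_bd : ∀ z : ℂ, ‖z‖ ^ 2 = 1 / 2 → u z = 1 ∧ fderiv ℝ u z = 0

/-- The Cayley transform from the disc to the upper half plane. -/
noncomputable def cay (w : ℂ) : UpperHalfPlane :=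
  UpperHalfPlane.ofComplex (Complex.I * (1 + w) / (1 - w))

end Pool.Agent.W743.HP
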