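import Pool.Agent.W743.HP.KV

/-!
Project HP (helper743), part FIN: final assembly.
-/

set_option autoImplicit false

open Set Filter Topology MeasureTheory
open scoped Pointwise

namespace Pool.Agent.W743.HP

theorem cay_injOn (h : S_CAY) : InjOn cay (Metric.ball 0 1) := by
  obtain ⟨Ψ, hΨ⟩ := h
  intro a ha b hb hab
  have h1 : Ψ ⟨a, ha⟩ = Ψ ⟨b, hb⟩ := by rw [hΨ, hΨ]; exact hab
  exact congrArg Subtype.val (Ψ.injective h1)

theorem cont_imcpow (s : ℂ) (g : Matrix.SpecialLinearGroup (Fin 2) ℝ) :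
    Continuous fun τ : UpperHalfPlane => ((g • τ).im : ℂ) ^ s := by
  have h1 : Continuous fun τ : UpperHalfPlane => ((g • τ).im : ℂ) :=
    Complex.continuous_ofReal.comp (UpperHalfPlane.continuous_im.comp (continuous_const_smul g))
  refine continuous_iff_continuousAt.2 fun τ => ?_
  refine ContinuousAt.cpow h1.continuousAt continuousAt_const ?_
  exact Complex.ofReal_mem_slitPlane.2 (UpperHalfPlane.im_pos _)

theorem setIntegral_smul_eq (g : Matrix.SpecialLinearGroup (Fin 2) ℝ) (K : Set UpperHalfPlane)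
    (ψ : UpperHalfPlane → ℝ) : ∫ z in g • K, ψ z = ∫ z in K, ψ (g • z) := by
  have h1 : MeasurePreserving (fun z : UpperHalfPlane =>
      (Matrix.SpecialLinearGroup.mapGL ℝ g : GL (Fin 2) ℝ) • z) :=
    measurePreserving_smul _ _
  have h2 : MeasurableEmbedding (fun z : UpperHalfPlane =>
      (Matrix.SpecialLinearGroup.mapGL ℝ g : GL (Fin 2) ℝ) • z) :=
    measurableEmbedding_const_smul _
  have h3 := h1.setIntegral_image_emb h2 ψ K
  exact h3

theorem fin (h1 : S_SOL) (h2 : S_KV) (h3 : S_EIG) (h4 : S_CV) (h5 : S_INJ) (h6 : S_CAY)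
    (h7 : S_TOP) (h8 : S_BALL) (h9 : S_NB) : FinalStm := by
  obtain ⟨α, f, u, hs⟩ := h1
  obtain ⟨hinj, hlt⟩ := h5 f hs.conf
  obtain ⟨t1, t2, t3, t4, t5⟩ := h7 f hs.conf
  have hci := cay_injOn h6
  have hmem : ∀ z ∈ cd, f z ∈ Metric.ball (0 : ℂ) 1 := fun z hz => by
    rw [Metric.mem_ball, dist_zero_right]
    exact hlt z (mem_ball_of_mem_cd hz)
  refine ⟨(fun z => cay (f z)) '' od, t1, t2, t3, ?_, ?_, ?_⟩
  · rw [t4]; exact t5
  · intro z r hr
    rw [t4] at hr
    rcases le_or_gt r 0 with hr0 | hr0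
    · have k0 : (0 : ℂ) ∈ cd := by simp [cd]
      have k1 : (1 / 2 : ℂ) ∈ cd := by
        simp only [cd, Set.mem_ofPred_eq, norm_div, norm_one, Complex.norm_ofNat]
        norm_num
      have m0 : cay (f 0) ∈ Metric.closedBall z r := hr ▸ mem_image_of_mem _ k0
      have m1 : cay (f (1 / 2)) ∈ Metric.closedBall z r := hr ▸ mem_image_of_mem _ k1
      have d0 : cay (f 0) = z := dist_le_zero.1 ((Metric.mem_closedBall.1 m0).trans hr0)
      have d1 : cay (f (1 / 2)) = z := dist_le_zero.1 ((Metric.mem_closedBall.1 m1).trans hr0)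
      have e1 : f 0 = f (1 / 2) := hci (hmem _ k0) (hmem _ k1) (d0.trans d1.symm)
      have e2 : (0 : ℂ) = 1 / 2 := hinj (mem_ball_of_mem_cd k0) (mem_ball_of_mem_cd k1) e1
      norm_num at e2
    · obtain ⟨w, ρ, hρ, hsub, himg⟩ := h8 z r hr0
      have e1 : cay '' (f '' cd) = cay '' Metric.closedBall w ρ := by
        rw [himg, ← hr, image_image]
      have e2 : f '' cd = Metric.closedBall w ρ := by
        refine (hci.image_eq_image_iff ?_ hsub).1 e1
        rintro _ ⟨z, hz, rfl⟩
        exact hmem z hz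
      exact hs.f_non (h9 f hs.conf hs.f_sym w ρ hρ e2)
  · have hα := hs.α_pos
    set s : ℂ := 1 / 2 + (Real.sqrt (α - 1 / 4) : ℂ) * Complex.I with hsdef
    have hss : s * (1 - s) = (α : ℂ) := by
      have e1 : ((Real.sqrt (α - 1 / 4) : ℝ) : ℂ) ^ 2 = ((α - 1 / 4 : ℝ) : ℂ) := by
        rw [← Complex.ofReal_pow, Real.sq_sqrt (by linarith)]
      have e2 : s * (1 - s) = 1 / 4 - (Real.sqrt (α - 1 / 4) : ℂ) ^ 2 * Complex.I ^ 2 := by
        rw [hsdef]; ring
      rw [e2, e1, Complex.I_sq]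
      push_cast
      ring
    have hc1 := cont_imcpow s 1
    simp only [one_smul] at hc1
    refine ⟨fun τ => ((τ.im : ℂ) ^ s).re, Complex.continuous_re.comp hc1, ⟨UpperHalfPlane.I, ?_⟩, ?_⟩
    · simp
    · intro g
      rw [setIntegral_smul_eq]
      have hcont := cont_imcpow s g
      have hcpt : IsCompact (closure ((fun z => cay (f z)) '' od)) := t3.isCompact_closure
      have hint : IntegrableOn (fun τ : UpperHalfPlane => ((g • τ).im : ℂ) ^ s)
          (closure ((fun z => cay (f z)) '' od)) := hcont.continuousOn.integrableOn_compact hcpt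
      have e1 : ∫ τ in closure ((fun z => cay (f z)) '' od), (((g • τ).im : ℂ) ^ s).re =
          (∫ τ in closure ((fun z => cay (f z)) '' od), ((g • τ).im : ℂ) ^ s).re :=
        integral_re hint
      rw [e1, t4, h4 f hs.f_diff hinj hlt _ hcont]
      obtain ⟨k1, k2⟩ := h3 f hs.f_diff hlt g s
      have e2 := h2 α f u hs (fun z => ((g • cay (f z)).im : ℂ) ^ s) k1 (fun z hz => by
        rw [k2 z hz, hss, Complex.real_smul]
        congr 1
        push_cast
        ring)
      have e3 : ∫ z in cd, (4 * KK f z) • ((g • cay (f z)).im : ℂ) ^ s =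
          (4 : ℝ) • ∫ z in cd, KK f z • ((g • cay (f z)).im : ℂ) ^ s := by
        rw [← integral_smul]
        refine integral_congr_ae (ae_of_all _ fun z => ?_)
        simp only [smul_smul]
      rw [e3, e2]
      simp

end Pool.Agent.W743.HP
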