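import Pool.Agent.W743.HP.Stm

/-!
Project HP (helper743), part KV: orthogonality to the eigenfunctions.
-/

set_option autoImplicit false

open Set Filter Topology MeasureTheory

namespace Pool.Agent.W743.HP

theorem Sol.conf {α : ℝ} {f : ℂ → ℂ} {u : ℂ → ℝ} (h : Sol α f u) : Conf f :=
  ⟨h.f_diff, h.f_zero, h.f_der⟩

theorem mem_ball_of_mem_cd {z : ℂ} (hz : z ∈ cd) : z ∈ Metric.ball (0 : ℂ) 1 := by
  rw [Metric.mem_ball, dist_zero_right]
  have h : ‖z‖ ^ 2 ≤ 1 / 2 := hz
  nlinarith [norm_nonneg z]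

theorem lap_sub_one (u : ℂ → ℝ) : lap (fun z => u z - 1) = lap u := by
  funext z
  unfold lap
  simp only [fderiv_sub_const]

theorem kv (hG : S_GREEN) (hI : S_INJ) : S_KV := by
  intro α f u hs V hV hVe
  obtain ⟨_, hlt⟩ := hI f hs.conf
  have h1 := hG (fun z => u z - 1) V (hs.u_diff.sub contDiffOn_const) hV (fun z hz => by
    obtain ⟨h2, h3⟩ := hs.u_bd z hz
    refine ⟨by simp [h2], ?_⟩
    rw [fderiv_sub_const]
    exact h3)
  have hm : MeasurableSet cd := by
    have : IsClosed cd := isClosed_le (by fun_prop) continuous_const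
    exact this.measurableSet
  have h2 : ∫ z in cd, ((fun z => u z - 1) z • lap V z - lap (fun z => u z - 1) z • V z) =
      ∫ z in cd, (4 * α : ℝ) • (KK f z • V z) := by
    refine setIntegral_congr_fun hm fun z hz => ?_
    have hb := mem_ball_of_mem_cd hz
    have h3 : (1 - ‖f z‖ ^ 2) ^ 2 ≠ 0 := by
      have h4 := hlt z hb
      have h5 : 0 < 1 - ‖f z‖ ^ 2 := by nlinarith [norm_nonneg (f z)]
      positivity
    have h4 : lap u z = -(4 * α * KK f z) * u z := by
      have h5 := hs.u_eq z hb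
      unfold KK
      have h7 : lap u z = -(4 * α * ‖deriv f z‖ ^ 2 * u z) / (1 - ‖f z‖ ^ 2) ^ 2 := by
        rw [eq_div_iff h3]
        linarith
      rw [h7]
      ring
    simp only [lap_sub_one, hVe z hb, h4, ← smul_assoc, smul_eq_mul, ← sub_smul]
    congr 1
    ring
  rw [h2, integral_smul] at h1
  have h6 : (4 * α : ℝ) ≠ 0 := by
    have := hs.α_pos
    positivity
  exact (smul_eq_zero.1 h1).resolve_left h6

end Pool.Agent.W743.HP
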