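import Pool.Agent.W743.HP.Defs

/-!
Project HP (helper743), problem MP_8f331d_an: statements of the parts.
-/

set_option autoImplicit false

open Set Filter Topology MeasureTheory
open scoped Pointwise

namespace Pool.Agent.W743.HP

/-! ### Functional analysis -/

/-- HP-LC: the implicit function theorem along a compact interval and the intermediate value
theorem. -/
def S_LC : Prop :=
  ∀ (X : Type) [NormedAddCommGroup X] [NormedSpace ℝ X] [CompleteSpace X] (F : ℝ × ℝ × X → X)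
    (_ : ContDiff ℝ 1 F) (a b : ℝ) (_ : a < b) (e : ℝ → X) (_ : ContinuousOn e (Icc a b))
    (_ : ∀ α ∈ Icc a b, F (α, 0, e α) = 0)
    (_ : ∀ α ∈ Icc a b, Function.Bijective fun v : X => fderiv ℝ F (α, 0, e α) (0, 0, v))
    (l : X →L[ℝ] ℝ) (_ : ∀ α ∈ Icc a b, l (e α) = 0) (va vb : X)
    (_ : fderiv ℝ F (a, 0, e a) (0, 1, va) = 0) (_ : fderiv ℝ F (b, 0, e b) (0, 1, vb) = 0)
    (_ : 0 < l va) (_ : l vb < 0) (δ : ℝ) (_ : 0 < δ),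
    ∃ α ∈ Icc a b, ∃ ε : ℝ, 0 < ε ∧ ε < δ ∧ ∃ x : X, ‖x - e α‖ < δ ∧ F (α, ε, x) = 0 ∧ l x = 0

/-- HP-CPT: operators on `ℓ¹` with `φ i → 0` are compact. -/
def S_CPT : Prop :=
  ∀ (ι Y : Type) [NormedAddCommGroup Y] [NormedSpace ℝ Y] [CompleteSpace Y] (φ : ι → Y) (C : ℝ)
    (h : ∀ i, ‖φ i‖ ≤ C), Tendsto φ cofinite (𝓝 0) → IsCompactOperator (lift φ C h)

/-- HP-DIFF: `FF` is smooth and `DF` is its derivative. -/
def S_DIFF : Prop :=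
  ContDiff ℝ 1 (fun z : ℝ × ℝ × (Q × E) => FF z.1 z.2.1 z.2.2) ∧
    ∀ (α ε : ℝ) (x : Q × E) (η : ℝ) (v : Q × E),
      fderiv ℝ (fun z : ℝ × ℝ × (Q × E) => FF z.1 z.2.1 z.2.2) (α, ε, x) (0, η, v) =
        DF α ε x η v

/-- The shift of sequences. -/
def sh (f : ℕ → ℝ) (j : ℕ) : ℝ := if j = 0 then 0 else f (j - 1)

/-- HP-COEF: coefficients of `DF` at the radial solution. -/
def S_COEF : Prop :=
  ∀ (α y : ℝ) (m : E), 0 ≤ α → 0 < y → y < 1 → G 0 α (y / 2) ≠ 0 → IsM0 α y m →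
    ∀ (η : ℝ) (v : Q × E),
    (∀ n, (DF α 0 (y • ue 0, m) η v).1 n =
      ∑' j : ℕ, (4 * n + 1) * (1 / 2) ^ j / (4 * n + j + 1) * v.2 (n, j)) ∧
    ∀ n j, (DF α 0 (y • ue 0, m) η v).2 (n, j) =
      v.2 (n, j) - 2 * y * sh (fun i => v.2 (n, i)) j +
        y ^ 2 * sh (sh fun i => v.2 (n, i)) j -
        dph η v.1 n * (4 * y / (4 * n + 1) * sh (mh α y) j -
          4 * y ^ 2 / (4 * n + 1) * sh (sh (mh α y)) j + 2 * α * y * uh α y j) -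
        (if n = 0 then v.1 0 * (2 * sh (mh α y) j - 2 * y * sh (sh (mh α y)) j +
          α * uh α y j) else 0) -
        α * y * (TT v.2 (n, j) + if (n, j) = (1, 0) then v.1 1 else 0)

/-- HP-TC: coefficients of `TT m`. -/
def S_TC : Prop :=
  ∀ (m : E) (n : ℕ),
    (∀ j, TT m (n, j + 1) = -(m (n, j) / ((4 * n + j + 1) * (j + 1)))) ∧
    TT m (n, 0) = ∑' j : ℕ, (1 / 2) ^ (j + 1) / ((4 * n + j + 1) * (j + 1)) * m (n, j) ∧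
    HasSum (fun j : ℕ => (1 / 2) ^ j * TT m (n, j)) 0 ∧
    HasSum (fun j : ℕ => -((j + 1) * (1 / 2) ^ j * TT m (n, j + 1))) (NN m n / (4 * n + 1))

/-- HP-MODE: the equation in one mode, coefficients. -/
def S_MODE : Prop :=
  ∀ (N : ℕ) (α y p : ℝ) (U M : ℕ → ℝ), 0 < y → y < 1 →
    (∀ j, M j = -((N + j + 1) * (j + 1) * U (j + 1))) →
    (∀ j, M j - 2 * y * sh M j + y ^ 2 * sh (sh M) j - α * y * U j =
      p * (4 * y / (N + 1) * sh (mh α y) j - 4 * y ^ 2 / (N + 1) * sh (sh (mh α y)) j +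
        2 * α * y * uh α y j)) →
    ∀ j, U j = U 0 * (c N α j * y ^ j) + 2 * p / (N + 1) * (j * uh α y j)

/-! ### The radial functions -/

/-- HP-BD: bounds of the coefficients. -/
def S_BD : Prop :=
  (∀ (N : ℕ) (α : ℝ) (A : ℕ), 0 ≤ α → α ≤ A → ∀ j : ℕ,
    |c N α j| ≤ (A + j).choose j ∧
    ((j : ℝ) + 1) * (j + 1 + N) * c N α (j + 1) = -α * ∑ i ∈ Finset.range (j + 1),
      ((j : ℝ) + 1 - i) * c N α i) ∧
  ∀ (N : ℕ) (α : ℝ) (j : ℕ), ((j : ℝ) + 1) * (j + 1 + N) * c N α (j + 1) -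
    2 * (j * (j + N) * c N α j) + sh (fun i => (i : ℝ) * (i + N) * c N α i) j + α * c N α j = 0

/-- HP-REG: regularity of the radial functions. -/
def S_REG : Prop :=
  (∀ (N : ℕ) (α s : ℝ), 0 ≤ α → |s| < 1 → Summable (fun j : ℕ => |c N α j * s ^ j|) ∧
    Summable (fun j : ℕ => |(j + 1) * c N α (j + 1) * s ^ j|) ∧
    Summable (fun j : ℕ => |(j + 2) * (j + 1) * c N α (j + 2) * s ^ j|) ∧
    Summable (fun j : ℕ => |(j + 1) ^ 2 * c N α (j + 1) * s ^ j|) ∧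
    HasDerivAt (G N α) (G1 N α s) s ∧ HasDerivAt (G1 N α) (G2 N α s) s ∧
    (1 - s) ^ 2 * (s * G2 N α s + (N + 1) * G1 N α s) + α * G N α s = 0) ∧
  ∀ N : ℕ, ContinuousOn (fun z : ℝ × ℝ => G N z.1 z.2) (Ici 0 ×ˢ Ioo (-1) 1) ∧
    ContinuousOn (fun z : ℝ × ℝ => G1 N z.1 z.2) (Ici 0 ×ˢ Ioo (-1) 1)

/-- The interval of the parameter `α`. -/
noncomputable def aL : ℝ := 121239 / 5000
/-- The interval of the parameter `α`. -/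
noncomputable def bL : ℝ := 121242 / 5000
/-- The interval of `x = y / 2`. -/
noncomputable def xl : ℝ := 187 / 500
/-- The interval of `x = y / 2`. -/
noncomputable def xh : ℝ := 188 / 500

/-- HP-NUM0: numerical facts on `N = 0`. -/
def S_NUM0 : Prop :=
  (∀ α ∈ Icc aL bL, ∀ x ∈ Icc xl xh, 0 < G 0 α x ∧ G2 0 α x < 0) ∧
  ∀ α ∈ Icc aL bL, 0 < G1 0 α xl ∧ G1 0 α xh < 0

/-- HP-NUM4: numerical facts on `N = 4`. -/
def S_NUM4 : Prop :=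
  (∀ α ∈ Icc aL bL, ∀ x ∈ Icc xl xh, G1 4 α x < 0) ∧
  (∃ x ∈ Icc xl xh, 0 < G1 0 aL x ∧ G 4 aL x < 0) ∧
  ∃ x ∈ Icc xl xh, G1 0 bL x < 0 ∧ 0 < G 4 bL x

/-- HP-NUM8: numerical facts on `N = 8, 12, ..., 28`. -/
def S_NUM8 : Prop :=
  ∀ α ∈ Icc aL bL, ∀ x ∈ Icc xl xh, ∀ n ∈ Finset.Icc 2 7, 0 < G (4 * n) α x

/-- HP-LARGE: large `N`. -/
def S_LARGE : Prop :=
  ∀ α ∈ Icc aL bL, ∀ x ∈ Icc xl xh, ∀ N : ℕ, 32 ≤ N → 0 < G N α x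

/-- HP-BR: the branch of radial solutions. -/
def S_BR : Prop :=
  ∃ x : ℝ → ℝ, ContinuousOn x (Icc aL bL) ∧
    (∀ α ∈ Icc aL bL, x α ∈ Icc xl xh ∧ G1 0 α (x α) = 0 ∧ 0 < G 0 α (x α) ∧
      G2 0 α (x α) < 0 ∧ G1 4 α (x α) < 0 ∧ ∀ n : ℕ, 2 ≤ n → 0 < G (4 * n) α (x α)) ∧
    G 4 aL (x aL) < 0 ∧ 0 < G 4 bL (x bL)

/-- HP-CONT: continuity of the radial solution in the parameters. -/
def S_CONT : Prop :=
  ∀ (x : ℝ → ℝ), ContinuousOn x (Icc aL bL) →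
    (∀ α ∈ Icc aL bL, x α ∈ Icc xl xh ∧ 0 < G 0 α (x α)) →
    ∃ m : ℝ → E, ContinuousOn m (Icc aL bL) ∧ ∀ α ∈ Icc aL bL, IsM0 α (2 * x α) (m α)

/-- HP-BASE: the radial solution is a solution. -/
def S_BASE : Prop :=
  ∀ (α y : ℝ) (m : E), 0 ≤ α → 0 < y → y < 1 → G 0 α (y / 2) ≠ 0 → G1 0 α (y / 2) = 0 →
    IsM0 α y m → FF α 0 (y • ue 0, m) = 0

/-- The conditions on the radial solution. -/
structure Good (α y : ℝ) (m : E) : Prop where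
  α_pos : 0 < α
  y_pos : 0 < y
  y_lt : y < 1
  isM0 : IsM0 α y m
  g0 : 0 < G 0 α (y / 2)
  g1 : G1 0 α (y / 2) = 0
  g2 : G2 0 α (y / 2) < 0
  g41 : G1 4 α (y / 2) < 0
  gn : ∀ n : ℕ, 2 ≤ n → 0 < G (4 * n) α (y / 2)

/-- HP-SOLV: consequences of the equation in one mode (boundary values). -/
def S_SOLV : Prop :=
  ∀ (α y : ℝ) (m : E), Good α y m → ∀ (η : ℝ) (v : Q × E),
    DF α 0 (y • ue 0, m) η v = 0 →
    v.1 0 = 0 ∧ (∀ n : ℕ, 2 ≤ n → v.1 n = 0 ∧ ∀ j, v.2 (n, j) = 0) ∧ (∀ j, v.2 (0, j) = 0) ∧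
    v.1 1 = -(η * y * G2 0 α (y / 2) * G 4 α (y / 2) / (5 * G 0 α (y / 2) * G1 4 α (y / 2))) ∧
    (η = 0 → ∀ j, v.2 (1, j) = 0)

/-- HP-FRED: Fredholm alternative. -/
def S_FRED : Prop :=
  ∀ (α y : ℝ) (m : E), Good α y m →
    (∀ v : Q × E, DF α 0 (y • ue 0, m) 0 v = 0 → v = 0) →
    Function.Bijective fun v : Q × E => DF α 0 (y • ue 0, m) 0 v

/-- HP-EX: existence of a nonradial solution. -/
def S_EX : Prop :=
  ∃ (α ε : ℝ) (x : Q × E), 24 < α ∧ ε ≠ 0 ∧ ‖ph ε x.1 - ue 0‖ ≤ 1 / 20 ∧ 7 / 10 < x.1 0 ∧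
    x.1 0 < 8 / 10 ∧ x.1 1 = 0 ∧ FF α ε x = 0

/-! ### From coefficients to functions -/

/-- HP-EV: evaluation is compatible with the operations. -/
def S_EV : Prop :=
  ∀ z : ℂ, ‖z‖ ≤ 1 → (∀ a b : E, evE z (mulE a b) = evE z a * evE z b) ∧
    (∀ p r : Q, evE z (BB p r) = (evQ z p * starRingEnd ℂ (evQ z r)).re) ∧
    (∀ a : E, evE z (RR a) = ‖z‖ ^ 2 * evE z a) ∧ evE z (ue (0, 0)) = 1 ∧ evQ z (ue 0) = 1

/-- HP-LAPL: the Laplacian of `ue (0, 0) + TT m`. -/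
def S_LAPL : Prop :=
  ∀ m : E, ContDiffOn ℝ 2 (fun z => evE z (ue (0, 0) + TT m)) (Metric.ball 0 1) ∧
    ∀ z ∈ Metric.ball (0 : ℂ) 1, lap (fun z => evE z (ue (0, 0) + TT m)) z = -(4 * evE z m)

/-- HP-BDV: boundary values of `ue (0, 0) + TT m`. -/
def S_BDV : Prop :=
  ∀ m : E, NN m = 0 → ∀ z : ℂ, ‖z‖ ^ 2 = 1 / 2 →
    evE z (ue (0, 0) + TT m) = 1 ∧ fderiv ℝ (fun z => evE z (ue (0, 0) + TT m)) z = 0

/-- HP-FH: the holomorphic function `t z evQ z (SS p)`. -/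
def S_FH : Prop :=
  ∀ (p : Q) (t : ℝ), DifferentiableOn ℂ (fun z => t * z * evQ z (SS p)) (Metric.ball 0 1) ∧
    (∀ z ∈ Metric.ball (0 : ℂ) 1, deriv (fun z => t * z * evQ z (SS p)) z = t * evQ z p) ∧
    (∀ z ∈ Metric.ball (0 : ℂ) 1, (t : ℂ) * (Complex.I * z) * evQ (Complex.I * z) (SS p) =
      Complex.I * (t * z * evQ z (SS p))) ∧
    (t ≠ 0 → p 1 ≠ 0 →
      ¬ ∃ c : ℂ, ∀ z ∈ Metric.ball (0 : ℂ) 1, t * z * evQ z (SS p) = c * z) ∧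
    ∀ z : ℂ, ‖evQ z p‖ ≤ ‖p‖

/-- HP-SOL: the classical solution. -/
def S_SOL : Prop := ∃ (α : ℝ) (f : ℂ → ℂ) (u : ℂ → ℝ), Sol α f u

/-! ### Green's identity and eigenfunctions -/

/-- HP-GREEN: Green's identity. -/
def S_GREEN : Prop :=
  ∀ (v : ℂ → ℝ) (V : ℂ → ℂ), ContDiffOn ℝ 2 v (Metric.ball 0 1) →
    ContDiffOn ℝ 2 V (Metric.ball 0 1) →
    (∀ z : ℂ, ‖z‖ ^ 2 = 1 / 2 → v z = 0 ∧ fderiv ℝ v z = 0) →
    ∫ z in cd, (v z • lap V z - lap v z • V z) = 0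

/-- The conformal factor. -/
noncomputable def KK (f : ℂ → ℂ) (z : ℂ) : ℝ := ‖deriv f z‖ ^ 2 / (1 - ‖f z‖ ^ 2) ^ 2

/-- HP-KV: orthogonality to the eigenfunctions. -/
def S_KV : Prop :=
  ∀ (α : ℝ) (f : ℂ → ℂ) (u : ℂ → ℝ), Sol α f u → ∀ V : ℂ → ℂ,
    ContDiffOn ℝ 2 V (Metric.ball 0 1) →
    (∀ z ∈ Metric.ball (0 : ℂ) 1, lap V z = -(4 * α * KK f z) • V z) →
    ∫ z in cd, KK f z • V z = 0

/-- HP-EIG: the eigenfunctions `(im) ^ s`. -/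
def S_EIG : Prop :=
  ∀ f : ℂ → ℂ, DifferentiableOn ℂ f (Metric.ball 0 1) →
    (∀ z ∈ Metric.ball (0 : ℂ) 1, ‖f z‖ < 1) →
    ∀ (g : Matrix.SpecialLinearGroup (Fin 2) ℝ) (s : ℂ),
      ContDiffOn ℝ 2 (fun z => ((g • cay (f z)).im : ℂ) ^ s) (Metric.ball 0 1) ∧
      ∀ z ∈ Metric.ball (0 : ℂ) 1, lap (fun z => ((g • cay (f z)).im : ℂ) ^ s) z =
        (-(4 * (s * (1 - s)) * KK f z) : ℂ) * ((g • cay (f z)).im : ℂ) ^ s

/-- HP-CV: change of variables. -/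
def S_CV : Prop :=
  ∀ f : ℂ → ℂ, DifferentiableOn ℂ f (Metric.ball 0 1) → InjOn f (Metric.ball 0 1) →
    (∀ z ∈ Metric.ball (0 : ℂ) 1, ‖f z‖ < 1) → ∀ ψ : UpperHalfPlane → ℂ, Continuous ψ →
    ∫ τ in (fun z => cay (f z)) '' cd, ψ τ = ∫ z in cd, (4 * KK f z) • ψ (cay (f z))

/-! ### Topology -/

/-- The conditions on `f`. -/
structure Conf (f : ℂ → ℂ) : Prop where
  f_diff : DifferentiableOn ℂ f (Metric.ball 0 1)
  f_zero : f 0 = 0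
  f_der : ∃ t : ℝ, 4 / 5 < t ∧ t < 9 / 10 ∧
    ∀ z ∈ Metric.ball (0 : ℂ) 1, ‖deriv f z - t‖ ≤ t / 10

/-- HP-INJ: `f` is injective, `‖f‖ < 1`. -/
def S_INJ : Prop :=
  ∀ f : ℂ → ℂ, Conf f → InjOn f (Metric.ball 0 1) ∧ ∀ z ∈ Metric.ball (0 : ℂ) 1, ‖f z‖ < 1

/-- HP-HOM: `f` on `cd` extends to a homeomorphism of the plane which is linear far out. -/
def S_HOM : Prop :=
  ∀ f : ℂ → ℂ, Conf f → ∃ (Φ : ℂ ≃ₜ ℂ) (t : ℝ), 0 < t ∧ t < 1 ∧ (∀ z ∈ cd, Φ z = f z) ∧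
    ∀ z : ℂ, 1 ≤ ‖z‖ → Φ z = t * z

/-- HP-CAY: the Cayley transform is a homeomorphism of the disc onto the half plane. -/
def S_CAY : Prop :=
  ∃ Ψ : Metric.ball (0 : ℂ) 1 ≃ₜ UpperHalfPlane, ∀ w, Ψ w = cay w

/-- HP-TOP: topology of the domain. -/
def S_TOP : Prop :=
  ∀ f : ℂ → ℂ, Conf f →
    IsOpen ((fun z => cay (f z)) '' od) ∧ IsConnected ((fun z => cay (f z)) '' od) ∧
    Bornology.IsBounded ((fun z => cay (f z)) '' od) ∧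
    closure ((fun z => cay (f z)) '' od) = (fun z => cay (f z)) '' cd ∧
    IsConnected ((fun z => cay (f z)) '' cd)ᶜ

/-- HP-BALL: hyperbolic balls are Euclidean balls of the disc. -/
def S_BALL : Prop :=
  ∀ (z : UpperHalfPlane) (r : ℝ), 0 < r → ∃ (w : ℂ) (ρ : ℝ), 0 < ρ ∧
    Metric.closedBall w ρ ⊆ Metric.ball 0 1 ∧ cay '' Metric.closedBall w ρ = Metric.closedBall z r

/-- HP-NB: `f (cd)` is not a Euclidean ball. -/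
def S_NB : Prop :=
  ∀ f : ℂ → ℂ, Conf f → (∀ z ∈ Metric.ball (0 : ℂ) 1, f (Complex.I * z) = Complex.I * f z) →
    ∀ (w : ℂ) (ρ : ℝ), 0 < ρ → f '' cd = Metric.closedBall w ρ →
    ∃ c : ℂ, ∀ z ∈ Metric.ball (0 : ℂ) 1, f z = c * z

/-- HP-FIN: the final statement. -/
def FinalStm : Prop :=
  ∃ D : Set UpperHalfPlane, IsOpen D ∧ IsConnected D ∧ Bornology.IsBounded D ∧
    IsConnected (closure D)ᶜ ∧ (∀ (z : UpperHalfPlane) (r : ℝ), closure D ≠ Metric.closedBall z r) ∧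
    ∃ ψ : UpperHalfPlane → ℝ, Continuous ψ ∧ (∃ z, ψ z ≠ 0) ∧
      ∀ g : Matrix.SpecialLinearGroup (Fin 2) ℝ, ∫ z in g • closure D, ψ z = 0

end Pool.Agent.W743.HP
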